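import Pool.Agent.H20.LE.Cpt

/-!
# One-dimensional spectral inequality on `(0,1)` (Parseval for the odd extension)
-/

open MeasureTheory Complex Set Filter Topology

namespace Pool.Agent.H17.LE

lemma neg_sub {g : ℝ → ℝ} : ∫ x in (-1 : ℝ)..1, g (-x) = ∫ x in (-1 : ℝ)..1, g x := by
  rw [intervalIntegral.integral_comp_neg]
  simp

lemma half {g : ℝ → ℝ} (hg : Continuous g) (h0 : ∀ x ≤ (0 : ℝ), g x = 0) :
    ∫ x in (-1 : ℝ)..1, g x = ∫ x in (0 : ℝ)..1, g x := by
  have h1 := intervalIntegral.integral_add_adjacent_intervals (hg.intervalIntegrable (-1) 0)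
    (hg.intervalIntegrable 0 1) (μ := volume)
  have h2 : ∫ x in (-1 : ℝ)..0, g x = 0 := by
    rw [intervalIntegral.integral_of_le (by norm_num)]
    rw [setIntegral_congr_fun (g := fun _ => (0 : ℝ)) measurableSet_Ioc]
    · simp
    · intro x hx; exact h0 x hx.2
  rw [h2, zero_add] at h1
  exact h1.symm

/-- the Fourier coefficients of an odd function -/
lemma coef_odd {f : ℝ → ℝ} (hf : Continuous f) (h0 : ∀ x ≤ (0 : ℝ), f x = 0) (n : ℤ) :
    fourierCoeffOn (by norm_num : (-1 : ℝ) < 1) (fun x => ((f x - f (-x) : ℝ) : ℂ)) n =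
      -I * ((∫ x in (0 : ℝ)..1, f x * Real.sin (n * Real.pi * x) : ℝ) : ℂ) := by
  rw [fourierCoeffOn_eq_integral]
  have h1 : ∀ x : ℝ, (fourier (-n) (x : AddCircle ((1 : ℝ) - -1)) : ℂ) • ((f x - f (-x) : ℝ) : ℂ) =
      ((Real.cos (n * Real.pi * x) * (f x - f (-x)) : ℝ) : ℂ) +
        (-I) * ((Real.sin (n * Real.pi * x) * (f x - f (-x)) : ℝ) : ℂ) := by
    intro x
    rw [fourier_coe_apply]
    have h2 : (2 * Real.pi * I * ((-n : ℤ) : ℂ) * x / ((1 - -1 : ℝ) : ℂ) : ℂ) =
        ((-(n * Real.pi * x) : ℝ) : ℂ) * I := by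
      push_cast
      ring
    rw [h2, Complex.exp_mul_I, ← Complex.ofReal_cos, ← Complex.ofReal_sin, Real.cos_neg,
      Real.sin_neg, smul_eq_mul]
    push_cast
    ring
  simp_rw [h1]
  have hA : Continuous fun x : ℝ => ((Real.cos (n * Real.pi * x) * (f x - f (-x)) : ℝ) : ℂ) := by
    fun_prop
  have hB : Continuous fun x : ℝ =>
      (-I) * ((Real.sin (n * Real.pi * x) * (f x - f (-x)) : ℝ) : ℂ) := by
    fun_prop
  rw [intervalIntegral.integral_add (hA.intervalIntegrable _ _) (hB.intervalIntegrable _ _),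
    intervalIntegral.integral_const_mul, intervalIntegral.integral_ofReal,
    intervalIntegral.integral_ofReal]
  have hC : ∫ x in (-1 : ℝ)..1, Real.cos (n * Real.pi * x) * (f x - f (-x)) = 0 := by
    have e1 : ∀ x, Real.cos (n * Real.pi * x) * (f x - f (-x)) =
        Real.cos (n * Real.pi * x) * f x - Real.cos (n * Real.pi * x) * f (-x) := fun x => by ring
    simp_rw [e1]
    rw [intervalIntegral.integral_sub
      (Continuous.intervalIntegrable (by fun_prop) _ _)
      (Continuous.intervalIntegrable (by fun_prop) _ _)]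
    have e2 := neg_sub (g := fun x => Real.cos (n * Real.pi * x) * f x)
    simp only [mul_neg, Real.cos_neg] at e2
    rw [e2, sub_self]
  have hD : ∫ x in (-1 : ℝ)..1, Real.sin (n * Real.pi * x) * (f x - f (-x)) =
      2 * ∫ x in (0 : ℝ)..1, f x * Real.sin (n * Real.pi * x) := by
    have e1 : ∀ x, Real.sin (n * Real.pi * x) * (f x - f (-x)) =
        Real.sin (n * Real.pi * x) * f x - Real.sin (n * Real.pi * x) * f (-x) := fun x => by ring
    simp_rw [e1]
    rw [intervalIntegral.integral_sub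
      (Continuous.intervalIntegrable (by fun_prop) _ _)
      (Continuous.intervalIntegrable (by fun_prop) _ _)]
    have e2 := neg_sub (g := fun x => Real.sin (n * Real.pi * x) * f x)
    simp only [mul_neg, Real.sin_neg, neg_mul] at e2
    rw [intervalIntegral.integral_neg] at e2
    have e3 : ∫ x in (-1 : ℝ)..1, Real.sin (n * Real.pi * x) * f (-x) =
        - ∫ x in (-1 : ℝ)..1, Real.sin (n * Real.pi * x) * f x := by linarith
    rw [e3, half (g := fun x => Real.sin (n * Real.pi * x) * f x) (by fun_prop)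
      (fun x hx => by simp [h0 x hx])]
    have e4 : ∀ x, Real.sin (n * Real.pi * x) * f x = f x * Real.sin (n * Real.pi * x) :=
      fun x => mul_comm _ _
    simp_rw [e4]
    ring
  rw [hC, hD]
  rw [Complex.real_smul]
  push_cast
  ring

/-- `L²` norm of an odd or even extension -/
lemma sq_ext {f : ℝ → ℝ} (hf : Continuous f) (h0 : ∀ x ≤ (0 : ℝ), f x = 0) (s : ℝ)
    (hs : s ^ 2 = 1) :
    ∫ x in (-1 : ℝ)..1, ‖((f x + s * f (-x) : ℝ) : ℂ)‖ ^ 2 = 2 * ∫ x in (0 : ℝ)..1, f x ^ 2 := by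
  have e1 : ∀ x : ℝ, ‖((f x + s * f (-x) : ℝ) : ℂ)‖ ^ 2 = f x ^ 2 + f (-x) ^ 2 := by
    intro x
    rw [Complex.norm_real, Real.norm_eq_abs, sq_abs]
    have e2 : f x * f (-x) = 0 := by
      rcases le_total x 0 with h | h
      · rw [h0 x h, zero_mul]
      · rw [h0 (-x) (by linarith), mul_zero]
    have e3 : (f x + s * f (-x)) ^ 2 = f x ^ 2 + s ^ 2 * f (-x) ^ 2 + 2 * s * (f x * f (-x)) := by
      ring
    rw [e3, e2, hs]
    ring
  simp_rw [e1]
  rw [intervalIntegral.integral_add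
      (Continuous.intervalIntegrable (by fun_prop) _ _)
      (Continuous.intervalIntegrable (by fun_prop) _ _),
    neg_sub (g := fun x => f x ^ 2), half (g := fun x => f x ^ 2) (by fun_prop)
      (fun x hx => by simp [h0 x hx])]
  ring

/-- The one-dimensional spectral inequality. -/
theorem one {f f' : ℝ → ℝ} (hf : ∀ x, HasDerivAt f (f' x) x) (hc : Continuous f')
    (h0 : ∀ x, x ∉ Ioo (0 : ℝ) 1 → f x = 0) (h0' : ∀ x, x ∉ Ioo (0 : ℝ) 1 → f' x = 0) :
    9 * Real.pi ^ 2 * ∫ x in (0 : ℝ)..1, f x ^ 2 ≤ (∫ x in (0 : ℝ)..1, f' x ^ 2) +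
      16 * Real.pi ^ 2 * (∫ x in (0 : ℝ)..1, f x * Real.sin (1 * Real.pi * x)) ^ 2 +
      10 * Real.pi ^ 2 * (∫ x in (0 : ℝ)..1, f x * Real.sin (2 * Real.pi * x)) ^ 2 := by
  have hfc : Continuous f := continuous_iff_continuousAt.2 fun x => (hf x).continuousAt
  have hn : ∀ x ≤ (0 : ℝ), f x = 0 := fun x hx => h0 x (fun h => absurd h.1 (not_lt.2 hx))
  have hn' : ∀ x ≤ (0 : ℝ), f' x = 0 := fun x hx => h0' x (fun h => absurd h.1 (not_lt.2 hx))
  set F : ℝ → ℂ := fun x => ((f x - f (-x) : ℝ) : ℂ) with hF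
  set F' : ℝ → ℂ := fun x => ((f' x + f' (-x) : ℝ) : ℂ) with hF'
  have hFd : ∀ x, HasDerivAt F (F' x) x := by
    intro x
    have h1 : HasDerivAt (fun x => f x - f (-x)) (f' x + f' (-x)) x := by
      have h2 := (hf x).fun_sub (((hf (-x)).comp x (hasDerivAt_neg x)))
      simpa [Function.comp_def] using h2
    exact h1.ofReal_comp
  have hFc : Continuous F := by rw [hF]; fun_prop
  have hFc' : Continuous F' := by rw [hF']; fun_prop
  have hab : (-1 : ℝ) < 1 := by norm_num
  have mem : ∀ {G : ℝ → ℂ}, Continuous G → MemLp G 2 (volume.restrict (Ioc (-1 : ℝ) 1)) := by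
    intro G hG
    obtain ⟨C, hC⟩ := isCompact_Icc.exists_bound_of_continuousOn (s := Icc (-1 : ℝ) 1)
      hG.continuousOn
    refine MemLp.of_bound hG.aestronglyMeasurable C ?_
    filter_upwards [ae_restrict_mem measurableSet_Ioc] with x hx
    exact hC x (Ioc_subset_Icc_self hx)
  have S := hasSum_sq_fourierCoeffOn hab (mem hFc)
  have S' := hasSum_sq_fourierCoeffOn hab (mem hFc')
  have hI : ∫ x in (-1 : ℝ)..1, ‖F x‖ ^ 2 = 2 * ∫ x in (0 : ℝ)..1, f x ^ 2 := by
    have := sq_ext hfc hn (-1) (by norm_num)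
    simpa [hF, sub_eq_add_neg] using this
  have hI' : ∫ x in (-1 : ℝ)..1, ‖F' x‖ ^ 2 = 2 * ∫ x in (0 : ℝ)..1, f' x ^ 2 := by
    have := sq_ext hc hn' 1 (by norm_num)
    simpa [hF'] using this
  rw [hI] at S
  rw [hI'] at S'
  have hrel : ∀ n : ℤ, n ≠ 0 → ‖fourierCoeffOn hab F' n‖ ^ 2 =
      (Real.pi * n) ^ 2 * ‖fourierCoeffOn hab F n‖ ^ 2 := by
    intro n hn0
    have h1 := fourierCoeffOn_of_hasDerivAt hab hn0 (fun x _ => hFd x)
      (hFc'.intervalIntegrable _ _)
    have hb : F 1 - F (-1) = 0 := by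
      simp only [hF]
      rw [h0 1 (by simp), h0 (-1) (by simp)]
      simp [h0 1 (by simp)]
    rw [hb, mul_zero, zero_sub] at h1
    have h2 : fourierCoeffOn hab F' n = (Real.pi * n * I) * fourierCoeffOn hab F n := by
      rw [h1]
      have hpi : (Real.pi : ℂ) ≠ 0 := by exact_mod_cast Real.pi_ne_zero
      have hnn : (n : ℂ) ≠ 0 := by exact_mod_cast hn0
      field_simp
      push_cast
      ring
    rw [h2, norm_mul, mul_pow]
    congr 1
    rw [norm_mul, norm_mul, Complex.norm_I, mul_one, Complex.norm_real, Complex.norm_intCast,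
      mul_pow, Real.norm_eq_abs, sq_abs, sq_abs]
    ring
  have hz : ∀ n : ℤ, ‖fourierCoeffOn hab F n‖ ^ 2 =
      (∫ x in (0 : ℝ)..1, f x * Real.sin (n * Real.pi * x)) ^ 2 := by
    intro n
    rw [hF, coef_odd hfc hn n, norm_mul, norm_neg, Complex.norm_I, one_mul, Complex.norm_real,
      Real.norm_eq_abs, sq_abs]
  have T := S'.sub (S.mul_left (9 * Real.pi ^ 2))
  have hle := sum_le_hasSum ({1, -1, 2, -2} : Finset ℤ) (fun n hn1 => ?_) T
  · rw [Finset.sum_insert (by decide), Finset.sum_insert (by decide), Finset.sum_insert (by decide),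
      Finset.sum_singleton, hrel 1 (by norm_num), hrel (-1) (by norm_num), hrel 2 (by norm_num),
      hrel (-2) (by norm_num), hz 1, hz (-1), hz 2, hz (-2)] at hle
    have e1 : ∫ x in (0 : ℝ)..1, f x * Real.sin (((-1 : ℤ) : ℝ) * Real.pi * x) =
        - ∫ x in (0 : ℝ)..1, f x * Real.sin (1 * Real.pi * x) := by
      rw [← intervalIntegral.integral_neg]
      congr 1
      funext x
      have : ((-1 : ℤ) : ℝ) * Real.pi * x = -(1 * Real.pi * x) := by push_cast; ring
      rw [this, Real.sin_neg, mul_neg]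
    have e2 : ∫ x in (0 : ℝ)..1, f x * Real.sin (((-2 : ℤ) : ℝ) * Real.pi * x) =
        - ∫ x in (0 : ℝ)..1, f x * Real.sin (2 * Real.pi * x) := by
      rw [← intervalIntegral.integral_neg]
      congr 1
      funext x
      have : ((-2 : ℤ) : ℝ) * Real.pi * x = -(2 * Real.pi * x) := by push_cast; ring
      rw [this, Real.sin_neg, mul_neg]
    rw [e1, e2] at hle
    simp only [Int.cast_one, Int.cast_ofNat, Int.cast_neg, smul_eq_mul] at hle
    norm_num at hle ⊢
    nlinarith [hle]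
  · show (0 : ℝ) ≤ ‖fourierCoeffOn hab F' n‖ ^ 2 - 9 * Real.pi ^ 2 * ‖fourierCoeffOn hab F n‖ ^ 2
    by_cases hn0 : n = 0
    · subst hn0
      rw [hz 0]
      simp
    · rw [hrel n hn0]
      have h3 : (9 : ℝ) ≤ (n : ℝ) ^ 2 := by
        have h4 : (9 : ℤ) ≤ n ^ 2 := by
          simp only [Finset.mem_insert, Finset.mem_singleton, not_or] at hn1
          rcases lt_or_ge n 0 with h | h
          · have : n ≤ -3 := by omega
            nlinarith
          · have : 3 ≤ n := by omega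
            nlinarith
        exact_mod_cast h4
      have h5 : (Real.pi * n) ^ 2 * ‖fourierCoeffOn hab F n‖ ^ 2 -
          9 * Real.pi ^ 2 * ‖fourierCoeffOn hab F n‖ ^ 2 =
          Real.pi ^ 2 * ((n : ℝ) ^ 2 - 9) * ‖fourierCoeffOn hab F n‖ ^ 2 := by ring
      rw [h5]
      have : 0 ≤ (n : ℝ) ^ 2 - 9 := by linarith
      positivity

end Pool.Agent.H17.LE
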