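import Pool.Agent.H17.LE.One

/-!
# Bessel's inequality for the span of `sin jπx · g(y)`, `g(x) · sin kπy`, `j, k ≤ 2`
-/

open MeasureTheory Complex Set Filter Topology

namespace Pool.Agent.H17.LE

noncomputable def S (j x : ℝ) : ℝ := Real.sin (j * Real.pi * x)

@[fun_prop]
lemma S_cont (j : ℝ) : Continuous (S j) := by unfold S; fun_prop

lemma int_cos (m : ℕ) (hm : m ≠ 0) : ∫ x in (0 : ℝ)..1, Real.cos (m * Real.pi * x) = 0 := by
  have h : (m * Real.pi : ℝ) ≠ 0 := mul_ne_zero (by exact_mod_cast hm) Real.pi_ne_zero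
  rw [intervalIntegral.integral_comp_mul_left (fun x => Real.cos x) h]
  rw [integral_cos]
  simp [Real.sin_nat_mul_pi]

lemma int_S_mul (j k : ℕ) (_hj : j ≠ 0) (hk : k ≠ 0) :
    ∫ x in (0 : ℝ)..1, S j x * S k x = if j = k then 1 / 2 else 0 := by
  have h1 : ∀ x, S j x * S k x =
      (Real.cos (((j : ℝ) - k) * Real.pi * x) - Real.cos (((j + k : ℕ) : ℝ) * Real.pi * x)) / 2 := by
    intro x
    have e1 : ((j : ℝ) - k) * Real.pi * x = j * Real.pi * x - k * Real.pi * x := by ring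
    have e2 : ((j + k : ℕ) : ℝ) * Real.pi * x = j * Real.pi * x + k * Real.pi * x := by
      push_cast; ring
    rw [e1, e2, Real.cos_sub, Real.cos_add]
    unfold S
    ring
  simp_rw [h1]
  rw [intervalIntegral.integral_div, intervalIntegral.integral_sub
    (Continuous.intervalIntegrable (by fun_prop) _ _)
    (Continuous.intervalIntegrable (by fun_prop) _ _), int_cos _ (by omega)]
  split_ifs with h
  · subst h
    simp
  · have h2 : ∫ x in (0 : ℝ)..1, Real.cos (((j : ℝ) - k) * Real.pi * x) = 0 := by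
      rcases lt_or_gt_of_ne h with h3 | h3
      · have h4 : ∀ x, Real.cos (((j : ℝ) - k) * Real.pi * x) =
            Real.cos (((k - j : ℕ) : ℝ) * Real.pi * x) := by
          intro x
          rw [Nat.cast_sub h3.le, ← Real.cos_neg]
          congr 1
          ring
        simp_rw [h4]
        exact int_cos _ (by omega)
      · have h4 : ∀ x, Real.cos (((j : ℝ) - k) * Real.pi * x) =
            Real.cos (((j - k : ℕ) : ℝ) * Real.pi * x) := by
          intro x
          rw [Nat.cast_sub h3.le]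
        simp_rw [h4]
        exact int_cos _ (by omega)
    rw [h2]
    simp

lemma S11 : ∫ x in (0 : ℝ)..1, S 1 x * S 1 x = 1 / 2 := by
  simpa using int_S_mul 1 1 (by norm_num) (by norm_num)

lemma S22 : ∫ x in (0 : ℝ)..1, S 2 x * S 2 x = 1 / 2 := by
  simpa using int_S_mul 2 2 (by norm_num) (by norm_num)

lemma S12 : ∫ x in (0 : ℝ)..1, S 1 x * S 2 x = 0 := by
  simpa using int_S_mul 1 2 (by norm_num) (by norm_num)

lemma int_add' {f g : ℝ → ℝ} (hf : Continuous f) (hg : Continuous g) :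
    ∫ x in (0 : ℝ)..1, (f x + g x) = (∫ x in (0 : ℝ)..1, f x) + ∫ x in (0 : ℝ)..1, g x :=
  intervalIntegral.integral_add (hf.intervalIntegrable _ _) (hg.intervalIntegrable _ _)

/-- projection identity in one variable -/
lemma bessel_eq {g : ℝ → ℝ} (hg : Continuous g) {a b : ℝ}
    (ha : ∫ x in (0 : ℝ)..1, g x * S 1 x = a) (hb : ∫ x in (0 : ℝ)..1, g x * S 2 x = b) :
    ∫ x in (0 : ℝ)..1, (g x - 2 * a * S 1 x - 2 * b * S 2 x) ^ 2 =
      (∫ x in (0 : ℝ)..1, g x ^ 2) - 2 * a ^ 2 - 2 * b ^ 2 := by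
  have h1 : ∀ x, (g x - 2 * a * S 1 x - 2 * b * S 2 x) ^ 2 = g x ^ 2 +
      ((-4 * a) * (g x * S 1 x) + ((-4 * b) * (g x * S 2 x) + ((4 * a ^ 2) * (S 1 x * S 1 x) +
        ((8 * a * b) * (S 1 x * S 2 x) + (4 * b ^ 2) * (S 2 x * S 2 x))))) := fun x => by ring
  simp_rw [h1]
  rw [int_add' (by fun_prop) (by fun_prop), int_add' (by fun_prop) (by fun_prop),
    int_add' (by fun_prop) (by fun_prop), int_add' (by fun_prop) (by fun_prop),
    int_add' (by fun_prop) (by fun_prop)]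
  simp only [intervalIntegral.integral_const_mul]
  rw [S11, S22, S12, ha, hb]
  ring

lemma bessel_le {g : ℝ → ℝ} (hg : Continuous g) :
    2 * (∫ x in (0 : ℝ)..1, g x * S 1 x) ^ 2 + 2 * (∫ x in (0 : ℝ)..1, g x * S 2 x) ^ 2 ≤
      ∫ x in (0 : ℝ)..1, g x ^ 2 := by
  have h1 := bessel_eq hg rfl rfl
  have h2 : 0 ≤ ∫ x in (0 : ℝ)..1, (g x - 2 * (∫ x in (0 : ℝ)..1, g x * S 1 x) * S 1 x -
      2 * (∫ x in (0 : ℝ)..1, g x * S 2 x) * S 2 x) ^ 2 :=
    intervalIntegral.integral_nonneg (by norm_num) fun _ _ => sq_nonneg _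
  linarith

/-- exchange of the order of integration -/
lemma swap {G : ℝ → ℝ → ℝ} (hG : Continuous fun p : ℝ × ℝ => G p.1 p.2) :
    ∫ x in (0 : ℝ)..1, ∫ y in (0 : ℝ)..1, G x y = ∫ y in (0 : ℝ)..1, ∫ x in (0 : ℝ)..1, G x y := by
  have hF : Continuous fun z : ℂ => G z.re z.im :=
    hG.comp (Complex.continuous_re.prodMk Complex.continuous_im)
  have h1 := H20.LE.sq_fubini 0 0 one_pos hF
  have h2 := H20.LE.sq_fubini' 0 0 one_pos hF
  rw [h1] at h2
  simpa using h2

section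
variable {G : ℝ → ℝ → ℝ}

lemma cont_left (hG : Continuous fun p : ℝ × ℝ => G p.1 p.2) (j : ℝ) :
    Continuous fun y => ∫ x in (0 : ℝ)..1, G x y * S j x := by
  refine intervalIntegral.continuous_parametric_intervalIntegral_of_continuous'
    (f := fun y x => G x y * S j x) ?_ 0 1
  have h1 : Continuous fun p : ℝ × ℝ => G p.2 p.1 := hG.comp continuous_swap
  have h2 : Continuous fun p : ℝ × ℝ => S j p.2 := (S_cont j).comp continuous_snd
  exact h1.mul h2

lemma cont_right (hG : Continuous fun p : ℝ × ℝ => G p.1 p.2) (k : ℝ) :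
    Continuous fun x => ∫ y in (0 : ℝ)..1, G x y * S k y := by
  refine intervalIntegral.continuous_parametric_intervalIntegral_of_continuous'
    (f := fun x y => G x y * S k y) ?_ 0 1
  have h2 : Continuous fun p : ℝ × ℝ => S k p.2 := (S_cont k).comp continuous_snd
  exact hG.mul h2

/-- Bessel's inequality -/
theorem bessel_two (hG : Continuous fun p : ℝ × ℝ => G p.1 p.2)
    {A B : ℝ → ℝ → ℝ} {C : ℝ → ℝ → ℝ}
    (hA : ∀ j y, A j y = ∫ x in (0 : ℝ)..1, G x y * S j x)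
    (hB : ∀ k x, B k x = ∫ y in (0 : ℝ)..1, G x y * S k y)
    (hC : ∀ j k, C j k = ∫ x in (0 : ℝ)..1, ∫ y in (0 : ℝ)..1, G x y * S j x * S k y) :
    2 * (∫ y in (0 : ℝ)..1, A 1 y ^ 2) + 2 * (∫ y in (0 : ℝ)..1, A 2 y ^ 2) +
      2 * (∫ x in (0 : ℝ)..1, B 1 x ^ 2) + 2 * (∫ x in (0 : ℝ)..1, B 2 x ^ 2) -
      4 * (C 1 1 ^ 2 + C 1 2 ^ 2 + C 2 1 ^ 2 + C 2 2 ^ 2) ≤
      (∫ x in (0 : ℝ)..1, ∫ y in (0 : ℝ)..1, G x y ^ 2) ∧
    2 * C 1 1 ^ 2 + 2 * C 1 2 ^ 2 ≤ (∫ y in (0 : ℝ)..1, A 1 y ^ 2) ∧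
    2 * C 2 1 ^ 2 + 2 * C 2 2 ^ 2 ≤ (∫ y in (0 : ℝ)..1, A 2 y ^ 2) ∧
    2 * C 1 1 ^ 2 + 2 * C 2 1 ^ 2 ≤ (∫ x in (0 : ℝ)..1, B 1 x ^ 2) ∧
    2 * C 1 2 ^ 2 + 2 * C 2 2 ^ 2 ≤ (∫ x in (0 : ℝ)..1, B 2 x ^ 2) := by
  have hAc : ∀ j, Continuous (A j) := fun j => by
    have : A j = fun y => ∫ x in (0 : ℝ)..1, G x y * S j x := funext (hA j)
    rw [this]; exact cont_left hG j
  have hBc : ∀ k, Continuous (B k) := fun k => by
    have : B k = fun x => ∫ y in (0 : ℝ)..1, G x y * S k y := funext (hB k)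
    rw [this]; exact cont_right hG k
  have hcG : ∀ y, Continuous fun x => G x y := fun y => by
    have : Continuous fun x : ℝ => ((x, y) : ℝ × ℝ) := by fun_prop
    exact hG.comp this
  have hcG' : ∀ x, Continuous fun y => G x y := fun x => by
    have : Continuous fun y : ℝ => ((x, y) : ℝ × ℝ) := by fun_prop
    exact hG.comp this
  -- the double coefficients
  have hCB : ∀ j k, ∫ x in (0 : ℝ)..1, B k x * S j x = C j k := by
    intro j k
    rw [hC]
    congr 1
    funext x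
    rw [hB, ← intervalIntegral.integral_mul_const]
    congr 1
    funext y
    ring
  have hCA : ∀ j k, ∫ y in (0 : ℝ)..1, A j y * S k y = C j k := by
    intro j k
    have hcont : Continuous fun p : ℝ × ℝ => G p.1 p.2 * S j p.1 * S k p.2 := by
      have h2 : Continuous fun p : ℝ × ℝ => S j p.1 := (S_cont j).comp continuous_fst
      have h3 : Continuous fun p : ℝ × ℝ => S k p.2 := (S_cont k).comp continuous_snd
      exact (hG.mul h2).mul h3
    rw [hC, swap (G := fun x y => G x y * S j x * S k y) hcont]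
    congr 1
    funext y
    rw [hA, ← intervalIntegral.integral_mul_const]
  have hA1 := bessel_le (hAc 1)
  have hA2 := bessel_le (hAc 2)
  have hB1 := bessel_le (hBc 1)
  have hB2 := bessel_le (hBc 2)
  rw [hCA, hCA] at hA1 hA2
  rw [hCB, hCB] at hB1 hB2
  refine ⟨?_, hA1, hA2, hB1, hB2⟩
  -- the projected function
  set Ψ : ℝ → ℝ → ℝ := fun x y => G x y - 2 * A 1 y * S 1 x - 2 * A 2 y * S 2 x with hΨ
  have hΨc : Continuous fun p : ℝ × ℝ => Ψ p.1 p.2 := by
    have a1 : Continuous fun p : ℝ × ℝ => A 1 p.2 := (hAc 1).comp continuous_snd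
    have a2 : Continuous fun p : ℝ × ℝ => A 2 p.2 := (hAc 2).comp continuous_snd
    have b1 : Continuous fun p : ℝ × ℝ => S 1 p.1 := (S_cont 1).comp continuous_fst
    have b2 : Continuous fun p : ℝ × ℝ => S 2 p.1 := (S_cont 2).comp continuous_fst
    exact (hG.sub ((continuous_const.mul a1).mul b1)).sub ((continuous_const.mul a2).mul b2)
  have h1 : ∫ x in (0 : ℝ)..1, ∫ y in (0 : ℝ)..1, Ψ x y ^ 2 =
      (∫ x in (0 : ℝ)..1, ∫ y in (0 : ℝ)..1, G x y ^ 2) - 2 * (∫ y in (0 : ℝ)..1, A 1 y ^ 2) -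
        2 * (∫ y in (0 : ℝ)..1, A 2 y ^ 2) := by
    rw [swap (G := fun x y => Ψ x y ^ 2) (hΨc.pow 2), swap (G := fun x y => G x y ^ 2) (hG.pow 2)]
    have h2 : ∀ y, ∫ x in (0 : ℝ)..1, Ψ x y ^ 2 =
        (∫ x in (0 : ℝ)..1, G x y ^ 2) + ((-2) * A 1 y ^ 2 + (-2) * A 2 y ^ 2) := by
      intro y
      have := bessel_eq (hcG y) (hA 1 y).symm (hA 2 y).symm
      simp only [hΨ]
      rw [this]
      ring
    simp_rw [h2]
    have hc1 : Continuous fun y => ∫ x in (0 : ℝ)..1, G x y ^ 2 :=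
      intervalIntegral.continuous_parametric_intervalIntegral_of_continuous'
        (f := fun y x => G x y ^ 2) ((continuous_pow 2).comp (hG.comp continuous_swap)) 0 1
    have a1 := hAc 1
    have a2 := hAc 2
    rw [int_add' hc1 (by fun_prop), int_add' (by fun_prop) (by fun_prop)]
    simp only [intervalIntegral.integral_const_mul]
    ring
  have hcΨ : ∀ x, Continuous fun y => Ψ x y := fun x => by
    have : Continuous fun y : ℝ => ((x, y) : ℝ × ℝ) := by fun_prop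
    exact hΨc.comp this
  have hk : ∀ k x, ∫ y in (0 : ℝ)..1, Ψ x y * S k y =
      B k x - 2 * C 1 k * S 1 x - 2 * C 2 k * S 2 x := by
    intro k x
    have e1 : ∀ y, Ψ x y * S k y = G x y * S k y +
        ((-2 * S 1 x) * (A 1 y * S k y) + (-2 * S 2 x) * (A 2 y * S k y)) := by
      intro y; simp only [hΨ]; ring
    simp_rw [e1]
    have a1 := hAc 1
    have a2 := hAc 2
    have a3 := hcG' x
    rw [int_add' (by fun_prop) (by fun_prop), int_add' (by fun_prop) (by fun_prop)]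
    simp only [intervalIntegral.integral_const_mul]
    rw [hCA, hCA, ← hB]
    ring
  have h3 : ∀ x, 2 * (B 1 x - 2 * C 1 1 * S 1 x - 2 * C 2 1 * S 2 x) ^ 2 +
      2 * (B 2 x - 2 * C 1 2 * S 1 x - 2 * C 2 2 * S 2 x) ^ 2 ≤
      ∫ y in (0 : ℝ)..1, Ψ x y ^ 2 := by
    intro x
    have := bessel_le (hcΨ x)
    rwa [hk, hk] at this
  have h4 : ∫ x in (0 : ℝ)..1, (2 * (B 1 x - 2 * C 1 1 * S 1 x - 2 * C 2 1 * S 2 x) ^ 2 +
      2 * (B 2 x - 2 * C 1 2 * S 1 x - 2 * C 2 2 * S 2 x) ^ 2) ≤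
      ∫ x in (0 : ℝ)..1, ∫ y in (0 : ℝ)..1, Ψ x y ^ 2 := by
    have b1 := hBc 1
    have b2 := hBc 2
    refine intervalIntegral.integral_mono_on (by norm_num)
      (Continuous.intervalIntegrable (by fun_prop) _ _) ?_ fun x _ => h3 x
    exact (intervalIntegral.continuous_parametric_intervalIntegral_of_continuous'
        (f := fun x y => Ψ x y ^ 2) ((continuous_pow 2).comp hΨc) 0 1).intervalIntegrable _ _
  have b1 := hBc 1
  have b2 := hBc 2
  rw [int_add' (by fun_prop) (by fun_prop), intervalIntegral.integral_const_mul,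
    intervalIntegral.integral_const_mul, bessel_eq (hBc 1) (hCB 1 1) (hCB 2 1),
    bessel_eq (hBc 2) (hCB 1 2) (hCB 2 2), h1] at h4
  linarith

end

end Pool.Agent.H17.LE
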